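import Pool.Agent.Lib.MP_28303a_al.NT.EX.Defs

/-! # Row DEC: finite objects over a discrete preorder are sums of objects at one point -/

set_option autoImplicit false
set_option linter.unusedSectionVars false
set_option linter.unusedVariables false

namespace Pool.Agent.NegK.NT.EX17

universe u

open CategoryTheory Limits Idempotents
open Pool.Agent.NegK.TW Pool.Agent.NegK.NT.EX

section

variable {k : Type u} [Ring k] {Γ : Type u} [Group Γ] {B : Type u} [MulAction Γ B] {P : Pre Γ B}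

theorem lin_single {A A' : Loc k P} (f : A ⟶ A') (i : A.ι) (a : MonoidAlgebra k Γ) :
    Loc.lin f (Finsupp.single i a) = a • Loc.lin f (Finsupp.single i 1) := by
  have : Finsupp.single i a = a • (Finsupp.single i (1 : MonoidAlgebra k Γ)) := by
    rw [Finsupp.smul_single, smul_eq_mul, mul_one]
  rw [this, map_smul]

theorem single_coeff {α : Type u} {i j : α} {h g : Γ}
    (hc : ((Finsupp.single i (MonoidAlgebra.single h (1 : k)) : α →₀ MonoidAlgebra k Γ) j).coeff g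
      ≠ 0) : i = j ∧ h = g := by
  classical
  rw [Finsupp.single_apply] at hc
  split_ifs at hc with h1
  · rw [MonoidAlgebra.coeff_single, Finsupp.single_apply] at hc
    split_ifs at hc with h2
    · exact ⟨h1, h2⟩
    · exact absurd rfl hc
  · exact absurd rfl hc

/-- Change of the basis: permutation and multiplication by elements of the group. -/
noncomputable def cob {A A' : Loc k P} (σ : A.ι ≃ A'.ι) (h : A.ι → Γ)
    (hh : ∀ i, A.loc i = h i • A'.loc (σ i)) : A ≅ A' where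
  hom := Loc.ofB (fun i => Finsupp.single (σ i) (MonoidAlgebra.single (h i) 1)) (by
    intro i j g hg
    obtain ⟨rfl, rfl⟩ := single_coeff hg
    rw [← hh]
    exact P.refl _)
  inv := Loc.ofB (fun j => Finsupp.single (σ.symm j) (MonoidAlgebra.single (h (σ.symm j))⁻¹ 1)) (by
    intro j i g hg
    obtain ⟨rfl, rfl⟩ := single_coeff hg
    rw [hh, inv_smul_smul, σ.apply_symm_apply]
    exact P.refl _)
  hom_inv_id := by
    refine Loc.ext_basis fun i => ?_
    rw [Loc.lin_comp, LinearMap.comp_apply, Loc.lin_ofB, lin_single, Loc.lin_ofB,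
      Finsupp.smul_single, smul_eq_mul, MonoidAlgebra.single_mul_single, σ.symm_apply_apply,
      mul_inv_cancel, one_mul]
    rfl
  inv_hom_id := by
    refine Loc.ext_basis fun j => ?_
    rw [Loc.lin_comp, LinearMap.comp_apply, Loc.lin_ofB, lin_single, Loc.lin_ofB,
      Finsupp.smul_single, smul_eq_mul, MonoidAlgebra.single_mul_single, σ.apply_symm_apply,
      inv_mul_cancel, one_mul]
    rfl

/-- Isomorphisms of located projective modules. -/
theorem iso_conj (Y : KL k P) {A : Loc k P} (φ : Y.X ≅ A) (e : A ⟶ A) (he : e ≫ e = e)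
    (h : φ.hom ≫ e = Y.p ≫ φ.hom) : Nonempty (Y ≅ (⟨A, e, he⟩ : KL k P)) := by
  have h' : e ≫ φ.inv = φ.inv ≫ Y.p := by
    rw [← cancel_epi φ.hom, ← Category.assoc, h, Category.assoc, φ.hom_inv_id, Category.comp_id,
      φ.hom_inv_id_assoc]
  refine ⟨⟨⟨Y.p ≫ φ.hom, ?_⟩, ⟨e ≫ φ.inv, ?_⟩, ?_, ?_⟩⟩
  · show Y.p ≫ (Y.p ≫ φ.hom) ≫ e = Y.p ≫ φ.hom
    rw [Category.assoc, h, ← Category.assoc Y.p, Y.idem, ← Category.assoc Y.p, Y.idem]
  · show e ≫ (e ≫ φ.inv) ≫ Y.p = e ≫ φ.inv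
    rw [h', Category.assoc, Y.idem, ← h', ← Category.assoc, he]
  · refine Karoubi.hom_ext _ _ ?_
    show (Y.p ≫ φ.hom) ≫ e ≫ φ.inv = Y.p
    rw [h', Category.assoc, φ.hom_inv_id_assoc, Y.idem]
  · refine Karoubi.hom_ext _ _ ?_
    show (e ≫ φ.inv) ≫ Y.p ≫ φ.hom = e
    rw [← h, Category.assoc, φ.inv_hom_id_assoc, he]

/-- Block diagonal idempotents. -/
theorem split {A A' : Loc k P} (e : Loc.sm A A' ⟶ Loc.sm A A') (he : e ≫ e = e)
    (h1 : Loc.sInl A A' ≫ e ≫ Loc.sSnd A A' = 0) (h2 : Loc.sInr A A' ≫ e ≫ Loc.sFst A A' = 0) :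
    ∃ (a : A ⟶ A) (a' : A' ⟶ A') (ha : a ≫ a = a) (ha' : a' ≫ a' = a'),
      (H65.smK (⟨A, a, ha⟩ : KL k P) ⟨A', a', ha'⟩).p = e := by
  have ht := Loc.sm_total A A'
  have hi1 : ∀ {Z : Loc k P} (f : Loc.sm A A' ⟶ Z), Loc.sFst A A' ≫ Loc.sInl A A' ≫ f +
      Loc.sSnd A A' ≫ Loc.sInr A A' ≫ f = f := fun f => by
    rw [← Category.assoc, ← Category.assoc, ← Preadditive.add_comp, ht, Category.id_comp]
  have g1 : ∀ {Z : Loc k P} (f : A' ⟶ Z), Loc.sInl A A' ≫ e ≫ Loc.sSnd A A' ≫ f = 0 := fun f => by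
    rw [← Category.assoc e, ← Category.assoc, h1, zero_comp]
  have g2 : ∀ {Z : Loc k P} (f : A ⟶ Z), Loc.sInr A A' ≫ e ≫ Loc.sFst A A' ≫ f = 0 := fun f => by
    rw [← Category.assoc e, ← Category.assoc, h2, zero_comp]
  have hee : ∀ {Z : Loc k P} (f : Loc.sm A A' ⟶ Z), e ≫ e ≫ f = e ≫ f := fun f => by
    rw [← Category.assoc, he]
  have k1 : ∀ {Z : Loc k P} (f : Loc.sm A A' ⟶ Z),
      Loc.sInl A A' ≫ e ≫ Loc.sFst A A' ≫ Loc.sInl A A' ≫ f = Loc.sInl A A' ≫ e ≫ f := fun f => by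
    have h := congrArg (fun w => Loc.sInl A A' ≫ e ≫ w) (hi1 f)
    simp only [Preadditive.comp_add] at h
    rw [g1, add_zero] at h
    exact h
  have k2 : ∀ {Z : Loc k P} (f : Loc.sm A A' ⟶ Z),
      Loc.sInr A A' ≫ e ≫ Loc.sSnd A A' ≫ Loc.sInr A A' ≫ f = Loc.sInr A A' ≫ e ≫ f := fun f => by
    have h := congrArg (fun w => Loc.sInr A A' ≫ e ≫ w) (hi1 f)
    simp only [Preadditive.comp_add] at h
    rw [g2, zero_add] at h
    exact h
  refine ⟨Loc.sInl A A' ≫ e ≫ Loc.sFst A A', Loc.sInr A A' ≫ e ≫ Loc.sSnd A A', ?_, ?_, ?_⟩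
  · rw [Category.assoc, Category.assoc, k1, hee]
  · rw [Category.assoc, Category.assoc, k2, hee]
  · show Loc.sFst A A' ≫ (Loc.sInl A A' ≫ e ≫ Loc.sFst A A') ≫ Loc.sInl A A' +
      Loc.sSnd A A' ≫ (Loc.sInr A A' ≫ e ≫ Loc.sSnd A A') ≫ Loc.sInr A A' = e
    have e1 : (Loc.sInl A A' ≫ e ≫ Loc.sFst A A') ≫ Loc.sInl A A' = Loc.sInl A A' ≫ e := by
      have h := k1 (𝟙 _)
      rw [Category.comp_id, Category.comp_id] at h
      rw [Category.assoc, Category.assoc]
      exact h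
    have e2 : (Loc.sInr A A' ≫ e ≫ Loc.sSnd A A') ≫ Loc.sInr A A' = Loc.sInr A A' ≫ e := by
      have h := k2 (𝟙 _)
      rw [Category.comp_id, Category.comp_id] at h
      rw [Category.assoc, Category.assoc]
      exact h
    rw [e1, e2]
    exact hi1 e

end

section

variable {k : Type u} [Ring k] {Γ : Type u} [Group Γ] {X : Type u} [MulAction Γ X]

/-- Morphisms between located modules on different orbits vanish. -/
theorem hom_zero {A A' : Loc k (dis Γ X)} (h : ∀ i j (g : Γ), A.loc i ≠ g • A'.loc j)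
    (f : A ⟶ A') : f = 0 := by
  refine Loc.ext_basis fun i => Finsupp.ext fun j => MonoidAlgebra.ext (Finsupp.ext fun g => ?_)
  by_contra hc
  exact h i j g (Loc.spt_lin f i j g hc)

/-- Idempotents at one point. -/
theorem at_point (x : X) (n : ℕ) (e : H65.At k (dis Γ X) n x ⟶ H65.At k (dis Γ X) n x)
    (he : e ≫ e = e) : ∃ q : Idem (MonoidAlgebra k (MulAction.stabilizer Γ x)),
      Nonempty (atx x q ≅ (⟨H65.At k (dis Γ X) n x, e, he⟩ : KL k (dis Γ X))) := by
  have hinj : Function.Injective (MulAction.stabilizer Γ x).subtype :=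
    (MulAction.stabilizer Γ x).subtype_injective
  have hH : ∀ g ∈ MulAction.stabilizer Γ x, (dis Γ X).le x (g • x) :=
    fun _ hg => (MulAction.mem_stabilizer_iff.1 hg).symm
  let E : Matrix (Fin n) (Fin n) (MonoidAlgebra k (MulAction.stabilizer Γ x)) :=
    Matrix.of fun i j => MonoidAlgebra.comapDomain (MulAction.stabilizer Γ x).subtype hinj
      (Loc.lin e (Finsupp.single ⟨i⟩ 1) ⟨j⟩)
  have h1 : ∀ i j, mdr k (MulAction.stabilizer Γ x).subtype (E i j) =
      Loc.lin e (Finsupp.single ⟨i⟩ 1) ⟨j⟩ := fun i j =>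
    MonoidAlgebra.mapDomain_comapDomain (fun g hg =>
      ⟨⟨g, MulAction.mem_stabilizer_iff.2
        (Loc.spt_lin e ⟨i⟩ ⟨j⟩ g (Finsupp.mem_support_iff.1 hg)).symm⟩, rfl⟩) hinj
  have h2 : atm (dis Γ X) (MulAction.stabilizer Γ x) x hH E = e :=
    Loc.ext_basis fun i => Finsupp.ext fun j => (atm_apply _ _ _ hH E i j).trans (h1 _ _)
  have h3 : E * E = E := by
    refine Matrix.ext fun i j => mdr_injective (k := k) hinj ?_
    have h4 : atm (dis Γ X) (MulAction.stabilizer Γ x) x hH (E * E) =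
        atm (dis Γ X) (MulAction.stabilizer Γ x) x hH E := by
      rw [← atm_comp, h2, he]
    rw [← atm_apply (dis Γ X) (MulAction.stabilizer Γ x) x hH (E * E) ⟨i⟩ ⟨j⟩, h4, atm_apply]
  refine ⟨⟨n, E, h3⟩, iso_conj (atx x ⟨n, E, h3⟩) (Iso.refl _) e he ?_⟩
  show 𝟙 _ ≫ e = atm (dis Γ X) (MulAction.stabilizer Γ x) x hH E ≫ 𝟙 _
  rw [h2, Category.comp_id]
  exact Category.id_comp e

/-- **Row DEC.** -/
theorem dec : EX.DecStatement.{u} := by
  intro k _ Γ _ X _ W hiso hat hsm hemp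
  have key : ∀ (n : ℕ) (Y : KL k (dis Γ X)), Finite Y.X.ι → Nat.card Y.X.ι ≤ n → W Y := by
    intro n
    induction n with
    | zero =>
      intro Y hY hn
      exact hemp Y (Finite.card_eq_zero_iff.1 (Nat.le_zero.1 hn))
    | succ n ih =>
      intro Y hY hn
      rcases isEmpty_or_nonempty Y.X.ι with h0 | ⟨⟨i0⟩⟩
      · exact hemp Y h0
      classical
      let x : X := Y.X.loc i0
      let S : Set Y.X.ι := {i | ∃ g : Γ, Y.X.loc i = g • x}
      let m := Nat.card S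
      let A1 : Loc k (dis Γ X) := H65.At k (dis Γ X) m x
      let A2 : Loc k (dis Γ X) := ⟨(Sᶜ : Set Y.X.ι), fun i => Y.X.loc i.1⟩
      let σ : Y.X.ι ≃ (Loc.sm A1 A2).ι := (Equiv.Set.sumCompl S).symm.trans
        (Equiv.sumCongr ((Finite.equivFin S).trans Equiv.ulift.symm) (Equiv.refl _))
      let h : Y.X.ι → Γ := fun i => if hi : i ∈ S then hi.choose else 1
      have hh : ∀ i, Y.X.loc i = h i • (Loc.sm A1 A2).loc (σ i) := by
        intro i
        by_cases hi : i ∈ S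
        · have e1 : σ i = Sum.inl (Equiv.ulift.symm (Finite.equivFin S ⟨i, hi⟩)) := by
            show Equiv.sumCongr _ _ ((Equiv.Set.sumCompl S).symm i) = _
            rw [Equiv.Set.sumCompl_symm_apply_of_mem hi]
            rfl
          have e2 : h i = hi.choose := dif_pos hi
          rw [e1, e2]
          exact hi.choose_spec
        · have e1 : σ i = Sum.inr ⟨i, hi⟩ := by
            show Equiv.sumCongr _ _ ((Equiv.Set.sumCompl S).symm i) = _
            rw [Equiv.Set.sumCompl_symm_apply_of_notMem hi]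
            rfl
          have e2 : h i = 1 := dif_neg hi
          rw [e1, e2, one_smul]
          rfl
      let φ : Y.X ≅ Loc.sm A1 A2 := cob σ h hh
      have he : (φ.inv ≫ Y.p ≫ φ.hom) ≫ φ.inv ≫ Y.p ≫ φ.hom = φ.inv ≫ Y.p ≫ φ.hom := by
        rw [Category.assoc, Category.assoc, φ.hom_inv_id_assoc, ← Category.assoc Y.p, Y.idem]
      obtain ⟨a, a', ha, ha', hp⟩ := split (φ.inv ≫ Y.p ≫ φ.hom) he
        (hom_zero (A := A1) (A' := A2) (fun i j g hg => j.2 ⟨g⁻¹, by
          have hg' : x = g • Y.X.loc j.1 := hg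
          rw [hg', inv_smul_smul]⟩) _)
        (hom_zero (A := A2) (A' := A1) (fun i j g hg => i.2 ⟨g, hg⟩) _)
      refine hiso _ _ ?_ (hsm (⟨A1, a, ha⟩ : KL k (dis Γ X)) ⟨A2, a', ha'⟩ ?_ ?_)
      · obtain ⟨ψ⟩ := iso_conj Y φ (H65.smK (⟨A1, a, ha⟩ : KL k (dis Γ X)) ⟨A2, a', ha'⟩).p
          (H65.smK (⟨A1, a, ha⟩ : KL k (dis Γ X)) ⟨A2, a', ha'⟩).idem (by
            rw [hp, φ.hom_inv_id_assoc])
        exact ⟨ψ.symm⟩
      · obtain ⟨q, hq⟩ := at_point x m a ha
        exact hiso _ _ hq (hat x q)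
      · have hf : Finite (Sᶜ : Set Y.X.ι) := inferInstance
        refine ih _ hf ?_
        have h1 : Nat.card (Sᶜ : Set Y.X.ι) < Nat.card Y.X.ι := by
          refine Finite.card_subtype_lt (x := i0) (p := fun i => i ∈ Sᶜ) ?_
          intro hc
          exact hc ⟨1, (one_smul Γ _).symm⟩
        have h2 : Nat.card A2.ι = Nat.card (Sᶜ : Set Y.X.ι) := rfl
        show Nat.card A2.ι ≤ n
        omega
  intro Y hY
  exact key _ Y hY le_rfl

end

end Pool.Agent.NegK.NT.EX17
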